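import Pool.Agent.H7.GF.Targets3

/-!
# MP_cd65c5_nt, module CS3: elementary bound for the character sums of cubics

Fourth moment over all polynomials of degree at most three, and the orbit of `h` under
`h(X) ↦ ε h(λ X + μ)`.
-/

set_option autoImplicit false

namespace Pool.Agent.H92.GF.CS3

open Polynomial Pool.Agent.H7.GF

variable {F : Type} [Field F] [Fintype F] [DecidableEq F]

/-- value of the polynomial with coefficients `c` -/
def ev (c : Fin 4 → F) (x : F) : F := ∑ i : Fin 4, c i * x ^ (i : ℕ)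

/-- the character sum -/
def S (c : Fin 4 → F) : ℤ := ∑ x : F, quadraticChar F (ev c x)

omit [Fintype F] [DecidableEq F] in
lemma ev_add (c d : Fin 4 → F) (x : F) : ev (c + d) x = ev c x + ev d x := by
  simp [ev, add_mul, Finset.sum_add_distrib]

omit [Fintype F] [DecidableEq F] in
lemma ev_smul (u : F) (d : Fin 4 → F) (x : F) : ev (u • d) x = u * ev d x := by
  simp [ev, Finset.mul_sum, mul_assoc]

lemma chi_abs (a : F) : |quadraticChar F a| ≤ 1 := by
  by_cases ha : a = 0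
  · simp [ha]
  · rcases quadraticChar_dichotomy ha with h | h <;> simp [h]

/-- interpolation -/
lemma exists_ell (x : Fin 4 → F) (j0 : Fin 4) (h : ∀ j, j ≠ j0 → x j ≠ x j0) :
    ∃ d : Fin 4 → F, ev d (x j0) = 1 ∧ ∀ j, j ≠ j0 → ev d (x j) = 0 := by
  classical
  set P : F[X] := ∏ j ∈ Finset.univ.erase j0, (X - C (x j)) with hP
  have hPd : P.natDegree = 3 := by
    rw [hP, natDegree_prod_of_monic _ _ (fun j _ => monic_X_sub_C (x j))]
    simp
  have hP0 : P.eval (x j0) ≠ 0 := by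
    rw [hP, eval_prod]
    refine Finset.prod_ne_zero_iff.2 fun j hj => ?_
    rw [Finset.mem_erase] at hj
    simp only [eval_sub, eval_X, eval_C]
    exact sub_ne_zero.2 fun h' => h j hj.1 h'.symm
  have hP1 : ∀ j, j ≠ j0 → P.eval (x j) = 0 := by
    intro j hj
    rw [hP, eval_prod]
    refine Finset.prod_eq_zero (Finset.mem_erase.2 ⟨hj, Finset.mem_univ j⟩) ?_
    simp
  have hev : ∀ y, ev (fun i : Fin 4 => P.coeff (i : ℕ)) y = P.eval y := by
    intro y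
    rw [eval_eq_sum_range' (by omega : P.natDegree < 4), ev,
      Fin.sum_univ_eq_sum_range (fun i => P.coeff i * y ^ i) 4]
  refine ⟨(P.eval (x j0))⁻¹ • (fun i : Fin 4 => P.coeff (i : ℕ)), ?_, ?_⟩
  · rw [ev_smul, hev, inv_mul_cancel₀ hP0]
  · intro j hj
    rw [ev_smul, hev, hP1 j hj, mul_zero]

/-- one term of the fourth moment -/
def T (x : Fin 4 → F) : ℤ := ∑ c : Fin 4 → F, ∏ j : Fin 4, quadraticChar F (ev c (x j))

lemma T_abs (x : Fin 4 → F) : |T x| ≤ (Fintype.card F : ℤ) ^ 4 := by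
  refine (Finset.abs_sum_le_sum_abs _ _).trans ?_
  refine (Finset.sum_le_card_nsmul _ _ 1 ?_).trans ?_
  · intro c _
    rw [Finset.abs_prod]
    exact Finset.prod_le_one (fun j _ => abs_nonneg _) fun j _ => chi_abs _
  · simp

lemma T_zero (hF : ringChar F ≠ 2) (x : Fin 4 → F) (j0 : Fin 4) (h : ∀ j, j ≠ j0 → x j ≠ x j0) :
    T x = 0 := by
  classical
  obtain ⟨d, hd1, hd2⟩ := exists_ell x j0 h
  have h1 : ∀ u : F, T x = ∑ c : Fin 4 → F, (∏ j ∈ Finset.univ.erase j0,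
      quadraticChar F (ev c (x j))) * quadraticChar F (ev c (x j0) + u) := by
    intro u
    rw [T, ← Equiv.sum_comp (Equiv.addRight (u • d))]
    refine Finset.sum_congr rfl fun c _ => ?_
    rw [← Finset.prod_erase_mul _ _ (Finset.mem_univ j0)]
    simp only [Equiv.coe_addRight, ev_add, ev_smul, hd1, mul_one]
    congr 1
    refine Finset.prod_congr rfl fun j hj => ?_
    rw [hd2 j (Finset.mem_erase.1 hj).1, mul_zero, add_zero]
  have h2 : ∑ u : F, T x = 0 := by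
    rw [Finset.sum_congr rfl fun u _ => h1 u, Finset.sum_comm]
    refine Finset.sum_eq_zero fun c _ => ?_
    rw [← Finset.mul_sum]
    have : ∑ u : F, quadraticChar F (ev c (x j0) + u) = 0 := by
      rw [← quadraticChar_sum_zero hF]
      exact Equiv.sum_comp (Equiv.addLeft (ev c (x j0))) (fun y => quadraticChar F y)
    rw [this, mul_zero]
  rw [Finset.sum_const, nsmul_eq_mul] at h2
  have h3 : ((Finset.univ : Finset F).card : ℤ) ≠ 0 := by
    rw [Finset.card_univ]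
    exact_mod_cast Fintype.card_ne_zero
  exact (mul_eq_zero.1 h2).resolve_left h3

/-- paired tuples -/
def Pr : Finset (Fin 4 → F) := Finset.univ.image (fun q : F × F => ![q.1, q.1, q.2, q.2]) ∪
  (Finset.univ.image (fun q : F × F => ![q.1, q.2, q.1, q.2]) ∪
  Finset.univ.image (fun q : F × F => ![q.1, q.2, q.2, q.1]))

omit [Field F] in
lemma card_Pr : ((Pr : Finset (Fin 4 → F)).card : ℤ) ≤ 3 * (Fintype.card F : ℤ) ^ 2 := by
  have h0 : ∀ f : F × F → (Fin 4 → F), (Finset.univ.image f).card ≤ Fintype.card F ^ 2 := by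
    intro f
    refine Finset.card_image_le.trans ?_
    simp [Fintype.card_prod, sq]
  have h1 := Finset.card_union_le (Finset.univ.image (fun q : F × F => ![q.1, q.1, q.2, q.2]))
    (Finset.univ.image (fun q : F × F => ![q.1, q.2, q.1, q.2]) ∪
      Finset.univ.image (fun q : F × F => ![q.1, q.2, q.2, q.1]))
  have h2 := Finset.card_union_le (Finset.univ.image (fun q : F × F => ![q.1, q.2, q.1, q.2]))
      (Finset.univ.image (fun q : F × F => ![q.1, q.2, q.2, q.1]))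
  have h3 : (Pr : Finset (Fin 4 → F)).card ≤ 3 * Fintype.card F ^ 2 := by
    have a1 := h0 (fun q : F × F => ![q.1, q.1, q.2, q.2])
    have a2 := h0 (fun q : F × F => ![q.1, q.2, q.1, q.2])
    have a3 := h0 (fun q : F × F => ![q.1, q.2, q.2, q.1])
    unfold Pr
    omega
  exact_mod_cast h3

lemma mem_Pr {x : Fin 4 → F} (hx : ∀ j0 : Fin 4, ∃ j, j ≠ j0 ∧ x j = x j0) : x ∈ Pr := by
  have key : (x 0 = x 1 ∧ x 2 = x 3) ∨ (x 0 = x 2 ∧ x 1 = x 3) ∨ (x 0 = x 3 ∧ x 1 = x 2) := by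
    obtain ⟨a, ha, ha'⟩ := hx 0
    obtain ⟨b, hb, hb'⟩ := hx 1
    obtain ⟨c, hc, hc'⟩ := hx 2
    obtain ⟨d, hd, hd'⟩ := hx 3
    fin_cases a <;> fin_cases b <;> fin_cases c <;> fin_cases d <;> simp_all
  unfold Pr
  simp only [Finset.mem_union, Finset.mem_image, Finset.mem_univ, true_and, Prod.exists]
  rcases key with ⟨h1, h2⟩ | ⟨h1, h2⟩ | ⟨h1, h2⟩
  · exact Or.inl ⟨x 0, x 2, by funext i; fin_cases i <;> simp [h1, h2]⟩
  · exact Or.inr (Or.inl ⟨x 0, x 1, by funext i; fin_cases i <;> simp [h1, h2]⟩)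
  · exact Or.inr (Or.inr ⟨x 0, x 1, by funext i; fin_cases i <;> simp [h1, h2]⟩)

/-- the fourth moment -/
lemma moment (hF : ringChar F ≠ 2) :
    ∑ c : Fin 4 → F, S c ^ 4 ≤ 3 * (Fintype.card F : ℤ) ^ 6 := by
  have h1 : ∑ c : Fin 4 → F, S c ^ 4 = ∑ x : Fin 4 → F, T x := by
    simp only [S, T, Fintype.sum_pow]
    rw [Finset.sum_comm]
  rw [h1, ← Finset.sum_subset (Finset.subset_univ (Pr : Finset (Fin 4 → F)))]
  · calc ∑ x ∈ (Pr : Finset (Fin 4 → F)), T x ≤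
        (Pr : Finset (Fin 4 → F)).card • (Fintype.card F : ℤ) ^ 4 :=
          Finset.sum_le_card_nsmul _ _ _ fun x _ => (le_abs_self _).trans (T_abs x)
      _ ≤ 3 * (Fintype.card F : ℤ) ^ 6 := by
          rw [nsmul_eq_mul]
          have := card_Pr (F := F)
          nlinarith [pow_nonneg (Int.natCast_nonneg (Fintype.card F)) 4]
  · intro x _ hx
    have : ¬ ∀ j0 : Fin 4, ∃ j, j ≠ j0 ∧ x j = x j0 := fun h => hx (mem_Pr h)
    push Not at this
    obtain ⟨j0, hj0⟩ := this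
    exact T_zero hF x j0 hj0

/-- the orbit -/
def Phi (h : Fin 4 → F) (t : Fˣ × F × Fˣ) : Fin 4 → F :=
  ![t.2.2 * (h 0 + h 1 * t.2.1 + h 2 * t.2.1 ^ 2 + h 3 * t.2.1 ^ 3),
    t.2.2 * t.1 * (3 * h 3 * t.2.1 ^ 2 + 2 * h 2 * t.2.1 + h 1),
    t.2.2 * t.1 ^ 2 * (3 * h 3 * t.2.1 + h 2),
    t.2.2 * t.1 ^ 3 * h 3]

omit [Fintype F] [DecidableEq F] in
lemma ev_Phi (h : Fin 4 → F) (t : Fˣ × F × Fˣ) (x : F) :
    ev (Phi h t) x = t.2.2 * ev h (t.1 * x + t.2.1) := by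
  obtain ⟨l, m, e⟩ := t
  simp only [ev, Fin.sum_univ_four, Phi]
  simp
  ring

lemma S_Phi (h : Fin 4 → F) (t : Fˣ × F × Fˣ) : S (Phi h t) ^ 4 = S h ^ 4 := by
  have h1 : S (Phi h t) = quadraticChar F (t.2.2 : F) * S h := by
    unfold S
    simp only [ev_Phi, map_mul, ← Finset.mul_sum]
    congr 1
    exact Equiv.sum_comp ((Units.mulLeft t.1).trans (Equiv.addRight t.2.1))
      (fun y => quadraticChar F (ev h y))
  rw [h1, mul_pow]
  have h2 : quadraticChar F (t.2.2 : F) ^ 2 = 1 := quadraticChar_sq_one (Units.ne_zero _)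
  have h3 : quadraticChar F (t.2.2 : F) ^ 4 = 1 := by
    calc quadraticChar F (t.2.2 : F) ^ 4 = (quadraticChar F (t.2.2 : F) ^ 2) ^ 2 := by ring
      _ = 1 := by rw [h2]; norm_num
  rw [h3, one_mul]

/-- units with a given power -/
lemma card_units_pow (k : ℕ) (hk : 0 < k) (a : F) :
    (Finset.univ.filter (fun u : Fˣ => (u : F) ^ k = a)).card ≤ k := by
  have h1 : ((Finset.univ.filter (fun u : Fˣ => (u : F) ^ k = a)).image (fun u : Fˣ => (u : F))) ⊆
      (nthRoots k a).toFinset := by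
    intro y hy
    rw [Finset.mem_image] at hy
    obtain ⟨u, hu, rfl⟩ := hy
    rw [Finset.mem_filter] at hu
    rw [Multiset.mem_toFinset, mem_nthRoots hk]
    exact hu.2
  have h2 : (Finset.univ.filter (fun u : Fˣ => (u : F) ^ k = a)).card =
      ((Finset.univ.filter (fun u : Fˣ => (u : F) ^ k = a)).image (fun u : Fˣ => (u : F))).card :=
    (Finset.card_image_of_injective _ Units.val_injective).symm
  rw [h2]
  exact (Finset.card_le_card h1).trans ((Multiset.toFinset_card_le _).trans (card_nthRoots k a))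

/-- fibres of the orbit map -/
lemma fibre (h : Fin 4 → F) (h3 : (3 : F) ≠ 0) (hh : h 3 ≠ 0)
    (hD : 3 * h 3 * h 1 - h 2 ^ 2 ≠ 0 ∨
      27 * h 3 ^ 2 * h 0 - 9 * h 3 * h 2 * h 1 + 2 * h 2 ^ 3 ≠ 0) (c : Fin 4 → F) :
    (Finset.univ.filter (fun t : Fˣ × F × Fˣ => Phi h t = c)).card ≤ 3 := by
  set s := Finset.univ.filter (fun t : Fˣ × F × Fˣ => Phi h t = c) with hs
  have hmem : ∀ t ∈ s, (t.2.2 : F) * t.1 ^ 3 * h 3 = c 3 ∧
      (t.2.2 : F) * t.1 ^ 2 * (3 * h 3 * t.2.1 + h 2) = c 2 ∧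
      (t.2.2 : F) * t.1 * (3 * h 3 * t.2.1 ^ 2 + 2 * h 2 * t.2.1 + h 1) = c 1 ∧
      (t.2.2 : F) * (h 0 + h 1 * t.2.1 + h 2 * t.2.1 ^ 2 + h 3 * t.2.1 ^ 3) = c 0 := by
    intro t ht
    rw [hs, Finset.mem_filter] at ht
    refine ⟨congrFun ht.2 3, congrFun ht.2 2, congrFun ht.2 1, congrFun ht.2 0⟩
  -- injectivity of the projection
  have hinj : Set.InjOn (fun t : Fˣ × F × Fˣ => t.1) (s : Set (Fˣ × F × Fˣ)) := by
    intro t ht t' ht' htt
    obtain ⟨a3, a2, -, -⟩ := hmem t ht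
    obtain ⟨b3, b2, -, -⟩ := hmem t' ht'
    obtain ⟨l, m, e⟩ := t
    obtain ⟨l', m', e'⟩ := t'
    simp only at htt a3 a2 b3 b2
    subst htt
    have hl : (l : F) ≠ 0 := l.ne_zero
    have he0 : (e : F) ≠ 0 := e.ne_zero
    have he : (e : F) = e' := by
      have h4 : ((l : F) ^ 3 * h 3) * ((e : F) - e') = 0 := by linear_combination a3 - b3
      rcases mul_eq_zero.1 h4 with h5 | h5
      · exact absurd h5 (mul_ne_zero (pow_ne_zero 3 hl) hh)
      · exact sub_eq_zero.1 h5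
    have he2 : e = e' := Units.ext he
    subst he2
    have hm : m = m' := by
      have h4 : ((e : F) * (l : F) ^ 2 * (3 * h 3)) * (m - m') = 0 := by
        linear_combination a2 - b2
      rcases mul_eq_zero.1 h4 with h5 | h5
      · exact absurd h5 (mul_ne_zero (mul_ne_zero he0 (pow_ne_zero 2 hl)) (mul_ne_zero h3 hh))
      · exact sub_eq_zero.1 h5
    rw [hm]
  have hcard : s.card = (s.image (fun t : Fˣ × F × Fˣ => t.1)).card :=
    (Finset.card_image_of_injOn hinj).symm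
  rw [hcard]
  rcases hD with hD | hD
  · -- squares
    have hsub : s.image (fun t : Fˣ × F × Fˣ => t.1) ⊆
        Finset.univ.filter (fun u : Fˣ => (u : F) ^ 2 =
          (c 3) ^ 2 * (3 * h 3 * h 1 - h 2 ^ 2) / (h 3 ^ 2 * (3 * c 3 * c 1 - c 2 ^ 2))) := by
      intro l hl
      rw [Finset.mem_image] at hl
      obtain ⟨t, ht, rfl⟩ := hl
      obtain ⟨a3, a2, a1, a0⟩ := hmem t ht
      obtain ⟨l, m, e⟩ := t
      simp only at a3 a2 a1 a0
      rw [Finset.mem_filter]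
      refine ⟨Finset.mem_univ _, ?_⟩
      have hl : (l : F) ≠ 0 := l.ne_zero
      have he : (e : F) ≠ 0 := e.ne_zero
      have hd : 3 * c 3 * c 1 - c 2 ^ 2 = (e : F) ^ 2 * l ^ 4 * (3 * h 3 * h 1 - h 2 ^ 2) := by
        rw [← a3, ← a2, ← a1]; ring
      have hd0 : 3 * c 3 * c 1 - c 2 ^ 2 ≠ 0 := by
        rw [hd]
        exact mul_ne_zero (mul_ne_zero (pow_ne_zero 2 he) (pow_ne_zero 4 hl)) hD
      rw [eq_div_iff (mul_ne_zero (pow_ne_zero 2 hh) hd0), hd, ← a3]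
      ring
    exact ((Finset.card_le_card hsub).trans (card_units_pow 2 (by norm_num) _)).trans (by norm_num)
  · have hsub : s.image (fun t : Fˣ × F × Fˣ => t.1) ⊆
        Finset.univ.filter (fun u : Fˣ => (u : F) ^ 3 =
          (c 3) ^ 3 * (27 * h 3 ^ 2 * h 0 - 9 * h 3 * h 2 * h 1 + 2 * h 2 ^ 3) /
            (h 3 ^ 3 * (27 * c 3 ^ 2 * c 0 - 9 * c 3 * c 2 * c 1 + 2 * c 2 ^ 3))) := by
      intro l hl
      rw [Finset.mem_image] at hl
      obtain ⟨t, ht, rfl⟩ := hl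
      obtain ⟨a3, a2, a1, a0⟩ := hmem t ht
      obtain ⟨l, m, e⟩ := t
      simp only at a3 a2 a1 a0
      rw [Finset.mem_filter]
      refine ⟨Finset.mem_univ _, ?_⟩
      have hl : (l : F) ≠ 0 := l.ne_zero
      have he : (e : F) ≠ 0 := e.ne_zero
      have hd : 27 * c 3 ^ 2 * c 0 - 9 * c 3 * c 2 * c 1 + 2 * c 2 ^ 3 =
          (e : F) ^ 3 * l ^ 6 * (27 * h 3 ^ 2 * h 0 - 9 * h 3 * h 2 * h 1 + 2 * h 2 ^ 3) := by
        rw [← a3, ← a2, ← a1, ← a0]; ring
      have hd0 : 27 * c 3 ^ 2 * c 0 - 9 * c 3 * c 2 * c 1 + 2 * c 2 ^ 3 ≠ 0 := by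
        rw [hd]
        exact mul_ne_zero (mul_ne_zero (pow_ne_zero 3 he) (pow_ne_zero 6 hl)) hD
      rw [eq_div_iff (mul_ne_zero (pow_ne_zero 3 hh) hd0), hd, ← a3]
      ring
    exact (Finset.card_le_card hsub).trans (card_units_pow 3 (by norm_num) _)

lemma orbit_bound (hF : ringChar F ≠ 2) (h : Fin 4 → F) (h3 : (3 : F) ≠ 0) (hh : h 3 ≠ 0)
    (hD : 3 * h 3 * h 1 - h 2 ^ 2 ≠ 0 ∨
      27 * h 3 ^ 2 * h 0 - 9 * h 3 * h 2 * h 1 + 2 * h 2 ^ 3 ≠ 0) :
    (((Fintype.card F : ℤ) - 1) * (Fintype.card F * ((Fintype.card F : ℤ) - 1))) * S h ^ 4 ≤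
      9 * (Fintype.card F : ℤ) ^ 6 := by
  classical
  have h1 : ∑ t : Fˣ × F × Fˣ, S (Phi h t) ^ 4 ≤ 3 * ∑ c : Fin 4 → F, S c ^ 4 := by
    rw [← Finset.sum_fiberwise Finset.univ (Phi h) (fun t => S (Phi h t) ^ 4), Finset.mul_sum]
    refine Finset.sum_le_sum fun c _ => ?_
    have h2 : ∑ t ∈ Finset.univ.filter (fun t : Fˣ × F × Fˣ => Phi h t = c), S (Phi h t) ^ 4 =
        (Finset.univ.filter (fun t : Fˣ × F × Fˣ => Phi h t = c)).card * S c ^ 4 := by
      rw [Finset.sum_congr rfl (g := fun _ => S c ^ 4), Finset.sum_const, nsmul_eq_mul]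
      intro t ht
      rw [(Finset.mem_filter.1 ht).2]
    rw [h2]
    refine mul_le_mul_of_nonneg_right ?_ (by positivity)
    exact_mod_cast fibre h h3 hh hD c
  have h2 : ∑ t : Fˣ × F × Fˣ, S (Phi h t) ^ 4 =
      (((Fintype.card F : ℤ) - 1) * (Fintype.card F * ((Fintype.card F : ℤ) - 1))) * S h ^ 4 := by
    rw [Finset.sum_congr rfl fun t _ => S_Phi h t, Finset.sum_const, nsmul_eq_mul]
    congr 1
    rw [Finset.card_univ, Fintype.card_prod, Fintype.card_prod, Fintype.card_units]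
    have : 1 ≤ Fintype.card F := Fintype.card_pos
    push_cast [Nat.cast_sub this]
    ring
  have h4 := moment (F := F) hF
  rw [← h2]
  linarith

/-- module CS3 -/
theorem main : T_CS3 := by
  intro p _ hp h hdeg hsq
  have hp5 : 5 ≤ p := by
    have hpp := (Fact.out : p.Prime)
    rcases Nat.lt_or_ge p 5 with h5 | h5
    · interval_cases p
      exact absurd hpp (by norm_num)
    · exact h5
  have hF : ringChar (ZMod p) ≠ 2 := by
    rw [ZMod.ringChar_zmod_n]; omega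
  have h3 : (3 : ZMod p) ≠ 0 := by
    intro h0
    have : ((3 : ℕ) : ZMod p) = 0 := by exact_mod_cast h0
    rw [ZMod.natCast_eq_zero_iff] at this
    have := Nat.le_of_dvd (by norm_num) this
    omega
  set hc : Fin 4 → ZMod p := fun i => h.coeff (i : ℕ) with hhc
  have hev : ∀ y, ev hc y = h.eval y := by
    intro y
    rw [eval_eq_sum_range' (by omega : h.natDegree < 4), ev,
      Fin.sum_univ_eq_sum_range (fun i => h.coeff i * y ^ i) 4]
  have hh : hc 3 ≠ 0 := by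
    change h.coeff 3 ≠ 0
    rw [← hdeg]
    exact leadingCoeff_ne_zero.2 (fun h0 => by rw [h0] at hdeg; simp at hdeg)
  have hD : 3 * hc 3 * hc 1 - hc 2 ^ 2 ≠ 0 ∨
      27 * hc 3 ^ 2 * hc 0 - 9 * hc 3 * hc 2 * hc 1 + 2 * hc 2 ^ 3 ≠ 0 := by
    by_contra hcon
    push Not at hcon
    obtain ⟨hD2, hD3⟩ := hcon
    have h27 : (27 : ZMod p) * hc 3 ^ 2 ≠ 0 := by
      refine mul_ne_zero ?_ (pow_ne_zero 2 hh)
      have : (27 : ZMod p) = 3 ^ 3 := by norm_num
      rw [this]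
      exact pow_ne_zero 3 h3
    have e1 : (9 : ZMod p) * hc 3 * hc 0 = hc 2 * hc 1 := by
      have : (3 * hc 3) * (9 * hc 3 * hc 0 - hc 2 * hc 1) = 0 := by
        linear_combination hD3 + 2 * hc 2 * hD2
      rcases mul_eq_zero.1 this with h5 | h5
      · exact absurd h5 (mul_ne_zero h3 hh)
      · exact sub_eq_zero.1 h5
    have hfac : C (27 * hc 3 ^ 2) * h = (C (3 * hc 3) * X + C (hc 2)) ^ 3 := by
      have hexp : h = C (hc 3) * X ^ 3 + C (hc 2) * X ^ 2 + C (hc 1) * X + C (hc 0) := by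
        conv_lhs => rw [h.as_sum_range' 4 (by omega)]
        simp only [Finset.sum_range_succ, Finset.sum_range_zero, ← C_mul_X_pow_eq_monomial, hhc]
        simp
        ring
      have k1 : hc 2 ^ 2 = 3 * hc 3 * hc 1 := by linear_combination -hD2
      have k2 : C (hc 2) ^ 2 = C (3 : ZMod p) * C (hc 3) * C (hc 1) := by
        rw [← C_pow, k1]; simp
      have k3 : C (9 : ZMod p) * C (hc 3) * C (hc 0) = C (hc 2) * C (hc 1) := by
        rw [← C_mul, ← C_mul, e1, C_mul]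
      have k9 : C (9 : ZMod p) = C (3 : ZMod p) ^ 2 := by rw [← C_pow]; norm_num
      have k27 : C (27 : ZMod p) = C (3 : ZMod p) ^ 3 := by rw [← C_pow]; norm_num
      have k33 : C (3 : ZMod p) = 3 := map_ofNat C 3
      rw [k9] at k3
      rw [C_mul, C_mul, C_pow, k27]
      rw [k33] at k2 k3 ⊢
      conv_lhs => rw [hexp]
      linear_combination (-9 * C (hc 3) * X - C (hc 2)) * k2 + (3 * C (hc 3)) * k3
    have hdvd : (C (3 * hc 3) * X + C (hc 2)) * (C (3 * hc 3) * X + C (hc 2)) ∣ h := by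
      refine ⟨C ((27 * hc 3 ^ 2)⁻¹) * (C (3 * hc 3) * X + C (hc 2)), ?_⟩
      have : C ((27 * hc 3 ^ 2)⁻¹) * (C (27 * hc 3 ^ 2) * h) = h := by
        rw [← mul_assoc, ← C_mul, inv_mul_cancel₀ h27, C_1, one_mul]
      calc h = C ((27 * hc 3 ^ 2)⁻¹) * (C (27 * hc 3 ^ 2) * h) := this.symm
        _ = _ := by rw [hfac]; ring
    have hu := hsq _ hdvd
    have hd0 := natDegree_eq_zero_of_isUnit hu
    rw [natDegree_linear (mul_ne_zero h3 hh)] at hd0
    exact one_ne_zero hd0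
  have hmain := orbit_bound hF hc h3 hh hD
  rw [ZMod.card] at hmain
  have hS : S hc = ∑ x : ZMod p, quadraticChar (ZMod p) (h.eval x) := by
    unfold S
    simp only [hev]
  rw [← hS]
  set s : ℤ := S hc with hs
  have hm2 : ((p : ℝ) - 1) * (p * ((p : ℝ) - 1)) * (s : ℝ) ^ 4 ≤ 9 * (p : ℝ) ^ 6 := by
    exact_mod_cast hmain
  have hpR : (5 : ℝ) ≤ p := by exact_mod_cast hp5
  have hp0 : (0 : ℝ) < p := by linarith
  have hm3 : (s : ℝ) ^ 4 ≤ 6 ^ 4 * (p : ℝ) ^ 3 := by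
    have hs4 : (0 : ℝ) ≤ (s : ℝ) ^ 4 := by positivity
    have h5 : (1 / 4 : ℝ) * (p : ℝ) ^ 3 ≤ ((p : ℝ) - 1) * (p * ((p : ℝ) - 1)) := by
      have h51 : (p : ℝ) ^ 2 / 4 ≤ ((p : ℝ) - 1) ^ 2 := by nlinarith
      calc (1 / 4 : ℝ) * (p : ℝ) ^ 3 = p * ((p : ℝ) ^ 2 / 4) := by ring
        _ ≤ p * ((p : ℝ) - 1) ^ 2 := mul_le_mul_of_nonneg_left h51 hp0.le
        _ = _ := by ring
    have h6 : (1 / 4 : ℝ) * (p : ℝ) ^ 3 * (s : ℝ) ^ 4 ≤ 9 * (p : ℝ) ^ 6 :=
      (mul_le_mul_of_nonneg_right h5 hs4).trans hm2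
    have h7 : (p : ℝ) ^ 3 * (s : ℝ) ^ 4 ≤ (p : ℝ) ^ 3 * (36 * (p : ℝ) ^ 3) := by nlinarith
    have h8 : (s : ℝ) ^ 4 ≤ 36 * (p : ℝ) ^ 3 := le_of_mul_le_mul_left h7 (by positivity)
    have : (0 : ℝ) ≤ (p : ℝ) ^ 3 := by positivity
    linarith
  have hr : (6 * (p : ℝ) ^ (3 / 4 : ℝ)) ^ 4 = 6 ^ 4 * (p : ℝ) ^ 3 := by
    rw [mul_pow, ← Real.rpow_natCast ((p : ℝ) ^ (3 / 4 : ℝ)) 4, ← Real.rpow_mul hp0.le]
    norm_num
  have hfin : |(s : ℝ)| ^ 4 ≤ (6 * (p : ℝ) ^ (3 / 4 : ℝ)) ^ 4 := by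
    rw [hr]
    calc |(s : ℝ)| ^ 4 = (s : ℝ) ^ 4 := by
          rw [← abs_pow]; exact abs_of_nonneg (by positivity)
      _ ≤ _ := hm3
  exact le_of_pow_le_pow_left₀ (by norm_num) (by positivity) hfin

end Pool.Agent.H92.GF.CS3
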