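import Pool.Agent.H7.GF.Targets1

/-!
# MP_cd65c5_nt, module MINK: a small integer which is not rational

Minkowski's theorem with the bodies `|x_{w₀}| < 1`, `|x_w| < T` (real place `w₀`) and
`|Re x_{w₀}| < 1`, `|Im x_{w₀}| < T`, `|x_w| < T` (complex place `w₀`), followed by the subtraction
of the integer nearest to the normalised trace.
-/

set_option autoImplicit false

namespace Pool.Agent.H92.GF.MINK

open Polynomial NumberField Module NumberField.InfinitePlace NumberField.mixedEmbedding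
open MeasureTheory ENNReal NNReal
open Pool.Agent.H7.GF

variable (K : Type) [Field K] [NumberField K]

/-- bound for the Minkowski bound -/
lemma bound_le : minkowskiBound K ↑1 ≤ ((2 ^ finrank ℚ K * NNReal.sqrt ‖discr K‖₊ : ℝ≥0) : ℝ≥0∞) := by
  classical
  rw [minkowskiBound, volume_fundamentalDomain_fractionalIdealLatticeBasis,
    volume_fundamentalDomain_latticeBasis, mixedEmbedding.finrank]
  simp only [Units.val_one, FractionalIdeal.absNorm_one, Rat.cast_one, ENNReal.ofReal_one, one_mul]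
  rw [ENNReal.coe_mul, ENNReal.coe_pow, mul_comm]
  refine mul_le_mul' le_rfl ?_
  calc (2 : ℝ≥0∞)⁻¹ ^ nrComplexPlaces K * (NNReal.sqrt ‖discr K‖₊ : ℝ≥0∞)
      ≤ 1 * (NNReal.sqrt ‖discr K‖₊ : ℝ≥0∞) := by
        refine mul_le_mul' (pow_le_one₀ (by simp) ?_) le_rfl
        exact ENNReal.inv_le_one.2 (by norm_num)
    _ = _ := one_mul _

open scoped Classical in
lemma prod_eq (w₀ : InfinitePlace K) (T : ℝ≥0) (f : InfinitePlace K → ℝ≥0)
    (hf : ∀ w, w ≠ w₀ → f w = T) (n : ℕ) (hn : finrank ℚ K = n + 1)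
    (h0 : f w₀ ^ mult w₀ = T ^ (mult w₀ - 1)) :
    ∏ w, f w ^ mult w = T ^ n := by
  rw [← Finset.prod_erase_mul _ _ (Finset.mem_univ w₀), h0]
  have h1 : ∏ w ∈ Finset.univ.erase w₀, f w ^ mult w =
      T ^ ∑ w ∈ Finset.univ.erase w₀, mult w := by
    rw [← Finset.prod_pow_eq_pow_sum]
    refine Finset.prod_congr rfl fun w hw => ?_
    rw [hf w (Finset.ne_of_mem_erase hw)]
  rw [h1, ← pow_add]
  congr 1
  have h := sum_mult_eq (K := K)
  rw [← Finset.sum_erase_add _ _ (Finset.mem_univ w₀)] at h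
  have := mult_pos (w := w₀)
  omega

/-- a small algebraic integer which is not rational -/
lemma exists_small (n : ℕ) (hn : finrank ℚ K = n + 1) (T : ℝ≥0)
    (hT : 2 ^ finrank ℚ K * NNReal.sqrt ‖discr K‖₊ < T ^ n) :
    ∃ α : 𝓞 K, (∀ z : ℤ, α ≠ (z : 𝓞 K)) ∧ ∀ w : InfinitePlace K, w (α : K) ≤ 1 + T := by
  classical
  obtain ⟨w₀⟩ : Nonempty (InfinitePlace K) := inferInstance
  have hT' : ((2 ^ finrank ℚ K * NNReal.sqrt ‖discr K‖₊ : ℝ≥0) : ℝ≥0∞) < ((T ^ n : ℝ≥0) : ℝ≥0∞) :=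
    ENNReal.coe_lt_coe.2 hT
  by_cases hw₀ : IsReal w₀
  · set f : InfinitePlace K → ℝ≥0 := fun w => if w = w₀ then 1 else T with hf
    have hm : mult w₀ = 1 := mult_isReal ⟨w₀, hw₀⟩
    have hvol : minkowskiBound K ↑1 < volume (convexBodyLT K f) := by
      refine (bound_le K).trans_lt (hT'.trans_le ?_)
      rw [convexBodyLT_volume, prod_eq K w₀ T f (fun w hw => by simp [hf, hw]) n hn
        (by simp [hf, hm])]
      calc ((T ^ n : ℝ≥0) : ℝ≥0∞) = 1 * ((T ^ n : ℝ≥0) : ℝ≥0∞) := (one_mul _).symm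
        _ ≤ _ := mul_le_mul' (by exact_mod_cast one_le_convexBodyLTFactor K) le_rfl
    obtain ⟨α, hα0, hα⟩ := exists_ne_zero_mem_ringOfIntegers_lt K hvol
    refine ⟨α, ?_, ?_⟩
    · rintro z rfl
      have h1 := hα w₀
      simp only [hf, if_true, map_intCast] at h1
      rw [← norm_embedding_eq, map_intCast, Complex.norm_intCast, NNReal.coe_one] at h1
      have h2 : |z| < 1 := by exact_mod_cast h1
      rw [Int.abs_lt_one_iff] at h2
      exact hα0 (by simp [h2])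
    · intro w
      refine (hα w).le.trans ?_
      by_cases hw : w = w₀
      · simp [hf, hw]
      · simp [hf, hw]
  · rw [not_isReal_iff_isComplex] at hw₀
    set f : InfinitePlace K → ℝ≥0 := fun w => if w = w₀ then NNReal.sqrt T else T with hf
    have hm : mult w₀ = 2 := mult_isComplex ⟨w₀, hw₀⟩
    have hf0 : f w₀ ^ 2 = T := by simp [hf]
    have hvol : minkowskiBound K ↑1 < volume (convexBodyLT' K f ⟨w₀, hw₀⟩) := by
      refine (bound_le K).trans_lt (hT'.trans_le ?_)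
      rw [convexBodyLT'_volume, prod_eq K w₀ T f (fun w hw => by simp [hf, hw]) n hn
        (by rw [hm, hf0]; simp)]
      calc ((T ^ n : ℝ≥0) : ℝ≥0∞) = 1 * ((T ^ n : ℝ≥0) : ℝ≥0∞) := (one_mul _).symm
        _ ≤ _ := mul_le_mul' (by exact_mod_cast one_le_convexBodyLT'Factor K) le_rfl
    obtain ⟨α, hα0, hα, hre, him⟩ := exists_ne_zero_mem_ringOfIntegers_lt' K ⟨w₀, hw₀⟩ hvol
    refine ⟨α, ?_, ?_⟩
    · rintro z rfl
      simp only [map_intCast] at hre
      have h2 : |z| < 1 := by exact_mod_cast hre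
      rw [Int.abs_lt_one_iff] at h2
      exact hα0 (by simp [h2])
    · intro w
      by_cases hw : w = w₀
      · subst hw
        have hf0' : (f w : ℝ) ^ 2 = T := by exact_mod_cast hf0
        rw [hf0'] at him
        rw [← norm_embedding_eq]
        refine (Complex.norm_le_abs_re_add_abs_im _).trans ?_
        linarith
      · refine (hα w hw).le.trans ?_
        simp [hf, hw]

/-- the trace is small -/
lemma trace_le (α : 𝓞 K) (B : ℝ) (hB : ∀ w : InfinitePlace K, w (α : K) ≤ B) :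
    |(Algebra.trace ℤ (𝓞 K) α : ℝ)| ≤ finrank ℚ K * B := by
  have h1 : ((Algebra.trace ℤ (𝓞 K) α : ℝ) : ℂ) = ∑ σ : K →ₐ[ℚ] ℂ, σ (α : K) := by
    rw [← trace_eq_sum_embeddings (K := ℚ) ℂ, ← Algebra.coe_trace_int]
    simp
  have h2 : |(Algebra.trace ℤ (𝓞 K) α : ℝ)| = ‖∑ σ : K →ₐ[ℚ] ℂ, σ (α : K)‖ := by
    rw [← h1, Complex.norm_real, Real.norm_eq_abs]
  rw [h2]
  refine (norm_sum_le _ _).trans ((Finset.sum_le_card_nsmul _ _ B ?_).trans ?_)
  · intro σ _
    have := hB (InfinitePlace.mk (σ : K →+* ℂ))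
    rwa [InfinitePlace.apply] at this
  · rw [Finset.card_univ, AlgHom.card, nsmul_eq_mul]

/-- module MINK -/
theorem main : T_MINK := by
  intro n hn
  refine ⟨19, by norm_num, ?_⟩
  intro K _ _ hK
  obtain ⟨m, rfl⟩ : ∃ m, n = m + 1 := ⟨n - 1, by omega⟩
  have hm1 : 1 ≤ m := by omega
  have hmR : (0 : ℝ) < m := by exact_mod_cast hm1
  set D : ℝ := ((discr K).natAbs : ℝ) with hD
  have hD1 : 1 ≤ D := by
    rw [hD]
    exact_mod_cast Int.natAbs_pos.2 (discr_ne_zero K)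
  have hD0 : 0 ≤ D := by linarith
  set E : ℝ := D ^ (1 / (2 * (((m + 1 : ℕ) : ℝ) - 1))) with hE
  have hcast : (((m + 1 : ℕ) : ℝ) - 1) = m := by push_cast; ring
  have hE1 : 1 ≤ E := Real.one_le_rpow hD1 (by rw [hcast]; positivity)
  have hE0 : 0 ≤ E := by linarith
  have hEpow : E ^ m = Real.sqrt D := by
    rw [hE, hcast, ← Real.rpow_natCast, ← Real.rpow_mul hD0, Real.sqrt_eq_rpow]
    congr 1
    field_simp
  set T : ℝ≥0 := ⟨8 * E, by positivity⟩ with hT
  have hTc : (T : ℝ) = 8 * E := rfl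
  have hbound : 2 ^ finrank ℚ K * NNReal.sqrt ‖discr K‖₊ < T ^ m := by
    rw [← NNReal.coe_lt_coe]
    push_cast
    rw [hTc, mul_pow, hEpow, hK]
    have h1 : |((discr K : ℤ) : ℝ)| = D := by
      rw [hD, Nat.cast_natAbs, Int.cast_abs]
    rw [Int.norm_eq_abs, h1]
    have h2 : (0 : ℝ) < Real.sqrt D := Real.sqrt_pos.2 (by linarith)
    refine mul_lt_mul_of_pos_right ?_ h2
    have h3 : (2 : ℝ) ^ (m + 1) < 2 ^ (3 * m) := pow_lt_pow_right₀ (by norm_num) (by omega)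
    calc (2 : ℝ) ^ (m + 1) < 2 ^ (3 * m) := h3
      _ = 8 ^ m := by rw [pow_mul]; norm_num
  obtain ⟨α, hα, hαw⟩ := exists_small K m hK T hbound
  have htr := trace_le K α (1 + T) hαw
  set t : ℤ := Algebra.trace ℤ (𝓞 K) α with ht
  set z : ℤ := round ((t : ℝ) / ((m + 1 : ℕ) : ℝ)) with hz
  have hN : (0 : ℝ) < ((m + 1 : ℕ) : ℝ) := by positivity
  have hround : |(t : ℝ) / ((m + 1 : ℕ) : ℝ) - z| ≤ 1 / 2 := abs_sub_round _
  refine ⟨α - (z : 𝓞 K), ?_, ?_, ?_⟩
  · intro y hy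
    exact hα (y + z) (by push_cast; rw [← hy]; ring)
  · have h1 : Algebra.trace ℤ (𝓞 K) (α - (z : 𝓞 K)) = t - (m + 1) * z := by
      rw [map_sub, ← ht]
      congr 1
      have h2 := Algebra.trace_algebraMap (R := ℤ) (S := 𝓞 K) z
      rw [RingOfIntegers.rank, hK] at h2
      simpa using h2
    rw [h1]
    have h3 : (((t - (m + 1) * z : ℤ)) : ℝ) = ((m + 1 : ℕ) : ℝ) * ((t : ℝ) / ((m + 1 : ℕ) : ℝ) - z) := by
      push_cast
      field_simp
    rw [h3, abs_mul, abs_of_pos hN]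
    calc ((m + 1 : ℕ) : ℝ) * |(t : ℝ) / ((m + 1 : ℕ) : ℝ) - z| ≤ ((m + 1 : ℕ) : ℝ) * (1 / 2) :=
          mul_le_mul_of_nonneg_left hround hN.le
      _ ≤ ((m + 1 : ℕ) : ℝ) := by linarith
  · intro w
    have h1 : |(z : ℝ)| ≤ (1 + T) + 1 / 2 := by
      have h2 : |(t : ℝ) / ((m + 1 : ℕ) : ℝ)| ≤ 1 + T := by
        rw [abs_div, abs_of_pos hN, div_le_iff₀ hN]
        rw [hK] at htr
        linarith
      have h3 : |(z : ℝ)| ≤ |(t : ℝ) / ((m + 1 : ℕ) : ℝ)| + |(t : ℝ) / ((m + 1 : ℕ) : ℝ) - z| := by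
        have := abs_sub_abs_le_abs_sub (z : ℝ) ((t : ℝ) / ((m + 1 : ℕ) : ℝ))
        rw [abs_sub_comm (z : ℝ)] at this
        linarith
      linarith
    have h4 : w ((α - (z : 𝓞 K) : 𝓞 K) : K) ≤ w (α : K) + |(z : ℝ)| := by
      rw [← norm_embedding_eq, ← norm_embedding_eq]
      have h5 : w.embedding ((α - (z : 𝓞 K) : 𝓞 K) : K) = w.embedding (α : K) - ((z : ℝ) : ℂ) := by
        simp
      rw [h5]
      refine (norm_sub_le _ _).trans ?_
      rw [Complex.norm_real, Real.norm_eq_abs]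
    have h6 := hαw w
    rw [hTc] at h6 h1
    linarith

end Pool.Agent.H92.GF.MINK
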