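import Pool.Agent.H7.GF.Targets1
import Pool.Agent.H7.GF.Targets3

/-!
# MP_cd65c5_nt, module N3T: sum over `s₂`
-/

set_option autoImplicit false

namespace Pool.Agent.H92.GF.N3T

open Pool.Agent.H7.GF

lemma cop_pos (b : ℤ) (s : ℕ) : 0 < cop b s := by
  classical
  unfold cop
  refine Finset.prod_pos fun t ht => ?_
  exact pow_pos (Nat.prime_of_mem_primeFactors (Finset.mem_filter.1 ht).1).pos _

lemma cop_dec (b : ℤ) (hb : b ≠ 0) (s : ℕ) (hs : s ≠ 0) :
    (∏ t ∈ b.natAbs.primeFactors, t ^ s.factorization t) * cop b s = s := by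
  classical
  have h1 : ∏ t ∈ b.natAbs.primeFactors, t ^ s.factorization t =
      ∏ t ∈ s.primeFactors.filter (fun t : ℕ => (t : ℤ) ∣ b), t ^ s.factorization t := by
    symm
    refine Finset.prod_subset ?_ ?_
    · intro t ht
      rw [Finset.mem_filter] at ht
      exact Nat.mem_primeFactors.2 ⟨Nat.prime_of_mem_primeFactors ht.1, Int.natCast_dvd.1 ht.2,
        Int.natAbs_ne_zero.2 hb⟩
    · intro t ht ht2
      have h2 : ¬ t ∣ s := by
        intro h3
        apply ht2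
        rw [Finset.mem_filter]
        exact ⟨Nat.mem_primeFactors.2 ⟨Nat.prime_of_mem_primeFactors ht, h3, hs⟩,
          Int.natCast_dvd.2 (Nat.dvd_of_mem_primeFactors ht)⟩
      rw [Nat.factorization_eq_zero_of_not_dvd h2, pow_zero]
  have h2 : cop b s = ∏ t ∈ s.primeFactors.filter (fun t : ℕ => ¬ (t : ℤ) ∣ b),
      t ^ s.factorization t := rfl
  rw [h1, h2, Finset.prod_filter_mul_prod_filter_not]
  exact Nat.prod_factorization_pow_eq_self hs

lemma sum_cop (b : ℤ) (hb : b ≠ 0) (N : ℕ) :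
    ∑ s ∈ Finset.Icc 1 N, (1 : ℝ) / (cop b s : ℝ) ≤
      ((Nat.log 2 N + 1 : ℕ) : ℝ) ^ b.natAbs.primeFactors.card * (1 + Real.log N) := by
  classical
  set P := b.natAbs.primeFactors with hP
  set f : ℕ → (P → ℕ) × ℕ := fun s => (fun t => s.factorization t, cop b s) with hf
  set V : Finset ((P → ℕ) × ℕ) := (Fintype.piFinset fun _ : P => Finset.range (Nat.log 2 N + 1)) ×ˢ
    Finset.Icc 1 N with hV
  have hinj : Set.InjOn f (Finset.Icc 1 N : Set ℕ) := by
    intro s hs s' hs' h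
    rw [Finset.coe_Icc, Set.mem_Icc] at hs hs'
    have h1 : (fun t : P => s.factorization t) = fun t : P => s'.factorization t :=
      congrArg Prod.fst h
    have h2 : cop b s = cop b s' := congrArg Prod.snd h
    rw [← cop_dec b hb s (by omega), ← cop_dec b hb s' (by omega), h2]
    congr 1
    refine Finset.prod_congr rfl fun t ht => ?_
    rw [show s.factorization t = s'.factorization t from congrFun h1 ⟨t, ht⟩]
  have himg : (Finset.Icc 1 N).image f ⊆ V := by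
    intro y hy
    rw [Finset.mem_image] at hy
    obtain ⟨s, hs, rfl⟩ := hy
    rw [Finset.mem_Icc] at hs
    have hs0 : s ≠ 0 := by omega
    rw [hV, Finset.mem_product, Fintype.mem_piFinset]
    refine ⟨fun t => ?_, ?_⟩
    · rw [Finset.mem_range, Nat.lt_succ_iff]
      refine Nat.le_log_of_pow_le (by norm_num) ?_
      have htp : (t : ℕ).Prime := Nat.prime_of_mem_primeFactors t.2
      calc 2 ^ s.factorization t ≤ (t : ℕ) ^ s.factorization t :=
            Nat.pow_le_pow_left htp.two_le _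
        _ ≤ s := Nat.le_of_dvd (by omega) (Nat.ordProj_dvd s t)
        _ ≤ N := hs.2
    · rw [Finset.mem_Icc]
      refine ⟨cop_pos b s, ?_⟩
      have h1 := cop_dec b hb s hs0
      have h2 : cop b s ∣ s := ⟨∏ t ∈ b.natAbs.primeFactors, t ^ s.factorization t, by
        rw [mul_comm]; exact h1.symm⟩
      exact (Nat.le_of_dvd (by omega) h2).trans hs.2
  calc ∑ s ∈ Finset.Icc 1 N, (1 : ℝ) / (cop b s : ℝ)
      = ∑ y ∈ (Finset.Icc 1 N).image f, (1 : ℝ) / (y.2 : ℝ) := by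
        rw [Finset.sum_image hinj]
    _ ≤ ∑ y ∈ V, (1 : ℝ) / (y.2 : ℝ) :=
        Finset.sum_le_sum_of_subset_of_nonneg himg fun _ _ _ => by positivity
    _ = ((Nat.log 2 N + 1 : ℕ) : ℝ) ^ P.card * ∑ c ∈ Finset.Icc 1 N, (1 : ℝ) / (c : ℝ) := by
        rw [hV, Finset.sum_product]
        simp only
        rw [Finset.sum_const, Fintype.card_piFinset, Finset.prod_const, Finset.card_univ,
          Finset.card_range, nsmul_eq_mul, Fintype.card_coe]
        push_cast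
        rfl
    _ ≤ _ := by
        refine mul_le_mul_of_nonneg_left ?_ (by positivity)
        have h1 := harmonic_le_one_add_log N
        rw [harmonic_eq_sum_Icc] at h1
        push_cast at h1
        simpa [one_div] using h1

/-- module N3T -/
theorem main (hO : T_OMG) : T_N3T := by
  classical
  intro b hb
  obtain ⟨K₁, hK₁⟩ := hO 3 (by norm_num) (1 / 16) (by norm_num)
  set k := b.natAbs.primeFactors.card with hk
  set δ : ℝ := 1 / (16 * ((k : ℝ) + 1)) with hδ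
  have hδ0 : 0 < δ := by positivity
  have hK1 : 1 ≤ K₁ := by
    have := hK₁ 1 le_rfl
    simpa [om] using this
  refine ⟨K₁ * ((2 / δ + 1) ^ k * 17), fun S hS => ?_⟩
  set N := ⌊S⌋₊ with hN
  have hN1 : 1 ≤ N := Nat.le_floor (by simpa using hS)
  have hNR : (1 : ℝ) ≤ N := by exact_mod_cast hN1
  have hN0 : (0 : ℝ) < N := by linarith
  have hNS : (N : ℝ) ≤ S := Nat.floor_le (by linarith)
  -- first step
  have h1 : ∑ s ∈ Finset.Icc 1 N, (3 : ℝ) ^ (om s) / (cop b s : ℝ) ≤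
      K₁ * (N : ℝ) ^ (1 / 16 : ℝ) * ∑ s ∈ Finset.Icc 1 N, (1 : ℝ) / (cop b s : ℝ) := by
    rw [Finset.mul_sum]
    refine Finset.sum_le_sum fun s hs => ?_
    rw [Finset.mem_Icc] at hs
    have hc : (0 : ℝ) < cop b s := by exact_mod_cast cop_pos b s
    rw [mul_one_div]
    refine div_le_div_of_nonneg_right ?_ hc.le
    refine (hK₁ s hs.1).trans ?_
    refine mul_le_mul_of_nonneg_left ?_ (by linarith)
    exact Real.rpow_le_rpow (by positivity) (by exact_mod_cast hs.2) (by norm_num)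
  -- logarithms
  have hlog : Real.log N ≤ (N : ℝ) ^ δ / δ := Real.log_le_rpow_div hN0.le hδ0
  have hlog16 : Real.log N ≤ (N : ℝ) ^ (1 / 16 : ℝ) / (1 / 16) :=
    Real.log_le_rpow_div hN0.le (by norm_num)
  have hlog0 : 0 ≤ Real.log N := Real.log_nonneg hNR
  have hNδ : 1 ≤ (N : ℝ) ^ δ := Real.one_le_rpow hNR hδ0.le
  have hN16 : 1 ≤ (N : ℝ) ^ (1 / 16 : ℝ) := Real.one_le_rpow hNR (by norm_num)
  have h2 : ((Nat.log 2 N + 1 : ℕ) : ℝ) ≤ (2 / δ + 1) * (N : ℝ) ^ δ := by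
    have h3 : (Nat.log 2 N : ℝ) * Real.log 2 ≤ Real.log N := by
      rw [← Real.log_pow]
      refine Real.log_le_log (by positivity) ?_
      have := Nat.pow_log_le_self 2 (by omega : N ≠ 0)
      exact_mod_cast this
    have h4 : (1 / 2 : ℝ) ≤ Real.log 2 := by have := Real.log_two_gt_d9; linarith
    have h5 : (0 : ℝ) ≤ (Nat.log 2 N : ℝ) := Nat.cast_nonneg _
    have h6 : (Nat.log 2 N : ℝ) ≤ 2 * Real.log N := by nlinarith
    push_cast
    calc (Nat.log 2 N : ℝ) + 1 ≤ 2 * ((N : ℝ) ^ δ / δ) + (N : ℝ) ^ δ := by linarith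
      _ = _ := by field_simp
  have h3 : ((Nat.log 2 N + 1 : ℕ) : ℝ) ^ k ≤ (2 / δ + 1) ^ k * (N : ℝ) ^ (1 / 16 : ℝ) := by
    calc ((Nat.log 2 N + 1 : ℕ) : ℝ) ^ k ≤ ((2 / δ + 1) * (N : ℝ) ^ δ) ^ k :=
          pow_le_pow_left₀ (Nat.cast_nonneg _) h2 k
      _ = (2 / δ + 1) ^ k * (N : ℝ) ^ (δ * k) := by
          rw [mul_pow, Real.rpow_mul hN0.le, Real.rpow_natCast]
      _ ≤ (2 / δ + 1) ^ k * (N : ℝ) ^ (1 / 16 : ℝ) := by
          refine mul_le_mul_of_nonneg_left ?_ (by positivity)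
          refine Real.rpow_le_rpow_of_exponent_le hNR ?_
          rw [hδ, div_mul_eq_mul_div, one_mul, div_le_div_iff₀ (by positivity) (by norm_num)]
          linarith
  have h4 : 1 + Real.log N ≤ 17 * (N : ℝ) ^ (1 / 16 : ℝ) := by linarith
  have h5 := sum_cop b hb N
  rw [← hk] at h5
  calc ∑ s ∈ Finset.Icc 1 N, (3 : ℝ) ^ (om s) / (cop b s : ℝ)
      ≤ K₁ * (N : ℝ) ^ (1 / 16 : ℝ) * ∑ s ∈ Finset.Icc 1 N, (1 : ℝ) / (cop b s : ℝ) := h1
    _ ≤ K₁ * (N : ℝ) ^ (1 / 16 : ℝ) * (((2 / δ + 1) ^ k * (N : ℝ) ^ (1 / 16 : ℝ)) *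
        (17 * (N : ℝ) ^ (1 / 16 : ℝ))) := by
        refine mul_le_mul_of_nonneg_left (h5.trans ?_) (by positivity)
        exact mul_le_mul h3 h4 (by linarith) (by positivity)
    _ = K₁ * ((2 / δ + 1) ^ k * 17) * ((N : ℝ) ^ (1 / 16 : ℝ)) ^ 3 := by ring
    _ = K₁ * ((2 / δ + 1) ^ k * 17) * (N : ℝ) ^ (3 / 16 : ℝ) := by
        rw [← Real.rpow_natCast ((N : ℝ) ^ (1 / 16 : ℝ)) 3, ← Real.rpow_mul hN0.le]
        norm_num
    _ ≤ K₁ * ((2 / δ + 1) ^ k * 17) * S ^ (1 / 4 : ℝ) := by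
        refine mul_le_mul_of_nonneg_left ?_ (by positivity)
        calc (N : ℝ) ^ (3 / 16 : ℝ) ≤ (N : ℝ) ^ (1 / 4 : ℝ) :=
              Real.rpow_le_rpow_of_exponent_le hNR (by norm_num)
          _ ≤ S ^ (1 / 4 : ℝ) := Real.rpow_le_rpow hN0.le hNS (by norm_num)

end Pool.Agent.H92.GF.N3T
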