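import Pool.Agent.H7.GF.Targets3

/-!
# MP_cd65c5_nt, modules N4R, N4E: products of the local Fourier bounds
-/

set_option autoImplicit false

namespace Pool.Agent.H92.GF.N4

open Pool.Agent.H7.GF

lemma prod_bound (K : ℝ) (C : ℕ) (hC : Squarefree C) (loc : ℕ → ℝ) (e : ℕ → ℕ)
    (h0 : ∀ p ∈ C.primeFactors, 0 ≤ loc p)
    (h : ∀ p ∈ C.primeFactors, loc p ≤ K * (p : ℝ) ^ (11 / 12 : ℝ) * (e p : ℝ) ^ (1 / 12 : ℝ)) :
    ∏ p ∈ C.primeFactors, loc p ≤ K ^ om C * (C : ℝ) ^ (11 / 12 : ℝ) *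
      ((∏ p ∈ C.primeFactors, e p : ℕ) : ℝ) ^ (1 / 12 : ℝ) := by
  refine (Finset.prod_le_prod h0 h).trans (le_of_eq ?_)
  rw [Finset.prod_mul_distrib, Finset.prod_mul_distrib, Finset.prod_const,
    Real.finsetProd_rpow _ _ (fun p _ => Nat.cast_nonneg p),
    Real.finsetProd_rpow _ _ (fun p _ => Nat.cast_nonneg (e p)), om]
  have h1 : ∏ p ∈ C.primeFactors, (p : ℝ) = C := by
    rw [← Nat.cast_prod, Nat.prod_primeFactors_of_squarefree hC]
  rw [h1]
  push_cast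
  rfl

lemma prod_dvd (s : Finset ℕ) (hs : ∀ p ∈ s, p.Prime) (N : ℤ) (h : ∀ p ∈ s, (p : ℤ) ∣ N) :
    ((∏ p ∈ s, p : ℕ) : ℤ) ∣ N := by
  rw [Int.natCast_dvd]
  refine Finset.prod_primes_dvd _ (fun p hp => (hs p hp).prime) fun p hp => ?_
  exact Int.natCast_dvd.1 (h p hp)

lemma prod_le (s : Finset ℕ) (hs : ∀ p ∈ s, p.Prime) (N : ℤ) (hN : N ≠ 0)
    (h : ∀ p ∈ s, (p : ℤ) ∣ N) : ((∏ p ∈ s, p : ℕ) : ℝ) ≤ |(N : ℝ)| := by
  have h1 := Int.le_of_dvd (abs_pos.2 hN) ((dvd_abs _ _).2 (prod_dvd s hs N h))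
  exact_mod_cast h1

lemma bdB_nonneg {K : ℝ} (hK : 1 ≤ K) (p : ℕ) (k : Fin 3 → ZMod p) : 0 ≤ BdB K p k := by
  unfold BdB
  split_ifs <;> positivity

lemma bdA_nonneg (p : ℕ) (w : ZMod p) (k : Fin 3 → ZMod p) : 0 ≤ BdA p w k := by
  unfold BdA
  split_ifs <;> positivity

/-- the local bound -/
noncomputable def loc (K : ℝ) (w : ℤ) (C₂ : ℕ) (k : Fin 3 → ℤ) (p : ℕ) : ℝ :=
  open Classical in if p ∣ C₂ then BdA p (w : ZMod p) (red p k) else BdB K p (red p k)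

lemma loc_nonneg {K : ℝ} (hK : 1 ≤ K) (w : ℤ) (C₂ : ℕ) (k : Fin 3 → ℤ) (p : ℕ) :
    0 ≤ loc K w C₂ k p := by
  unfold loc
  split_ifs
  · exact bdA_nonneg _ _ _
  · exact bdB_nonneg hK _ _

lemma pow_aux {p : ℕ} (hp : 1 ≤ p) : (p : ℝ) ^ (11 / 12 : ℝ) * (p : ℝ) ^ (1 / 12 : ℝ) = p := by
  have hp0 : (0 : ℝ) < p := by exact_mod_cast hp
  rw [← Real.rpow_add hp0]
  norm_num

/-- the trivial local bound -/
lemma loc_le {K : ℝ} (hK : 1 ≤ K) (w : ℤ) (C₂ : ℕ) (k : Fin 3 → ℤ) {p : ℕ} (hp : 1 ≤ p) :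
    loc K w C₂ k p ≤ K * (p : ℝ) ^ (11 / 12 : ℝ) * (p : ℝ) ^ (1 / 12 : ℝ) := by
  have hp1 : (1 : ℝ) ≤ p := by exact_mod_cast hp
  have hp0 : (0 : ℝ) < p := by linarith
  rw [mul_assoc, pow_aux hp]
  have h1 : (p : ℝ) ≤ K * p := by nlinarith
  have h2 : (p : ℝ) ^ (11 / 12 : ℝ) ≤ p := by
    calc (p : ℝ) ^ (11 / 12 : ℝ) ≤ (p : ℝ) ^ (1 : ℝ) := Real.rpow_le_rpow_of_exponent_le hp1 (by norm_num)
      _ = p := Real.rpow_one _
  have h3 : Real.sqrt p ≤ p := by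
    rw [Real.sqrt_le_left hp0.le]
    nlinarith
  unfold loc BdA BdB
  split_ifs
  · linarith
  · linarith
  · positivity
  · linarith
  · nlinarith

/-- the good local bound -/
lemma loc_le' {K : ℝ} (hK : 1 ≤ K) (w : ℤ) (C₂ : ℕ) (k : Fin 3 → ℤ) {p : ℕ} (hp : 1 ≤ p)
    (h : (p ∣ C₂ ∧ ¬ (p : ℤ) ∣ k 1) ∨ (¬ p ∣ C₂ ∧ ∃ i, ¬ (p : ℤ) ∣ k i)) :
    loc K w C₂ k p ≤ K * (p : ℝ) ^ (11 / 12 : ℝ) := by
  have hp1 : (1 : ℝ) ≤ p := by exact_mod_cast hp
  have h1 : (p : ℝ) ^ (1 / 2 : ℝ) ≤ (p : ℝ) ^ (11 / 12 : ℝ) :=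
    Real.rpow_le_rpow_of_exponent_le hp1 (by norm_num)
  have h0 : (0 : ℝ) ≤ (p : ℝ) ^ (11 / 12 : ℝ) := by positivity
  unfold loc
  rcases h with ⟨h2, h3⟩ | ⟨h2, i, h3⟩
  · rw [if_pos h2, BdA, if_pos, Real.sqrt_eq_rpow]
    · nlinarith
    · intro h4
      exact h3 ((ZMod.intCast_zmod_eq_zero_iff_dvd _ _).1 h4)
  · rw [if_neg h2, BdB, if_neg]
    intro h4
    have h5 := congrFun h4 i
    exact h3 ((ZMod.intCast_zmod_eq_zero_iff_dvd _ _).1 h5)

lemma BT_eq (K : ℝ) (w : ℤ) (C C₂ : ℕ) (k : Fin 3 → ℤ) :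
    BT K w C C₂ k = ∏ p ∈ C.primeFactors, loc K w C₂ k p := rfl

/-- products with an arbitrary set of bad primes -/
lemma BT_le {K : ℝ} (hK : 1 ≤ K) (w : ℤ) (C C₂ : ℕ) (hC : Squarefree C) (k : Fin 3 → ℤ)
    (B : ℕ → Prop) [DecidablePred B]
    (h : ∀ p ∈ C.primeFactors, ¬ B p →
      (p ∣ C₂ ∧ ¬ (p : ℤ) ∣ k 1) ∨ (¬ p ∣ C₂ ∧ ∃ i, ¬ (p : ℤ) ∣ k i)) :
    BT K w C C₂ k ≤ K ^ om C * (C : ℝ) ^ (11 / 12 : ℝ) *
      ((∏ p ∈ C.primeFactors.filter B, p : ℕ) : ℝ) ^ (1 / 12 : ℝ) := by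
  rw [BT_eq, Finset.prod_filter]
  refine prod_bound K C hC _ (fun p => if B p then p else 1)
    (fun p _ => loc_nonneg hK w C₂ k p) fun p hp => ?_
  have hp1 : 1 ≤ p := (Nat.prime_of_mem_primeFactors hp).one_le
  by_cases hB : B p
  · simp only [if_pos hB]
    exact loc_le hK w C₂ k hp1
  · simp only [if_neg hB, Nat.cast_one, Real.one_rpow, mul_one]
    exact loc_le' hK w C₂ k hp1 (h p hp hB)

/-- module N4R -/
theorem main_R : T_N4R := by
  classical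
  intro K hK
  refine ⟨K, hK, ?_⟩
  intro b w C C₂ L k hL hb hgood hC₂ hw hk hcase
  have hC := hgood.1
  have hL1 : (1 : ℝ) ≤ L := by exact_mod_cast hL
  have hL0 : (0 : ℝ) < L := by linarith
  have hkR : ∀ i, |(k i : ℝ)| ≤ L := fun i => by exact_mod_cast (hk i).le
  have hb0 : (0 : ℝ) ≤ |(b : ℝ)| := abs_nonneg _
  have hKpow : K ^ om C ≤ K ^ (om C + 1) := pow_le_pow_right₀ hK (Nat.le_succ _)
  -- reduction to a bound for the product of the bad primes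
  have key : ∀ (B : ℕ → Prop) [DecidablePred B], (∀ p ∈ C.primeFactors, ¬ B p →
      (p ∣ C₂ ∧ ¬ (p : ℤ) ∣ k 1) ∨ (¬ p ∣ C₂ ∧ ∃ i, ¬ (p : ℤ) ∣ k i)) →
      ((∏ p ∈ C.primeFactors.filter B, p : ℕ) : ℝ) ≤ (1 + |(b : ℝ)|) * (L : ℝ) ^ 3 →
      BT K w C C₂ k ≤ K ^ (om C + 1) * (C : ℝ) ^ (11 / 12 : ℝ) *
        ((1 + |(b : ℝ)|) * (L : ℝ) ^ 3) ^ (1 / 12 : ℝ) := by
    intro B _ h1 h2
    refine (BT_le hK w C C₂ hC k B h1).trans ?_
    gcongr
  by_cases hk1 : k 1 = 0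
  · -- second case
    have hne : (k 2) ^ 2 ≠ b * (k 0) ^ 2 := hcase.resolve_left (fun h => h hk1)
    by_cases hBT : BT K w C C₂ k = 0
    · rw [hBT]; positivity
    have hloc : ∀ p ∈ C.primeFactors, p ∣ C₂ → (p : ℤ) ∣ (k 2) ^ 2 - b * (k 0) ^ 2 := by
      intro p hp hp2
      rw [BT_eq] at hBT
      have h1 := Finset.prod_ne_zero_iff.1 hBT p hp
      have h2 : red p k 2 + (w : ZMod p) * red p k 0 = 0 := by
        by_contra h3
        apply h1
        unfold loc BdA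
        rw [if_pos hp2, if_neg, if_neg h3]
        simp [red, hk1]
      have h3 : (p : ℤ) ∣ k 2 + w * k 0 := by
        rw [← ZMod.intCast_zmod_eq_zero_iff_dvd]
        push_cast
        exact h2
      have h4 : (p : ℤ) ∣ w ^ 2 - b := (Int.natCast_dvd_natCast.2 hp2).trans hw
      have h5 : (k 2) ^ 2 - b * (k 0) ^ 2 = (k 2 + w * k 0) * (k 2 - w * k 0) +
        (w ^ 2 - b) * (k 0) ^ 2 := by ring
      rw [h5]
      exact dvd_add (h3.mul_right _) (h4.mul_right _)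
    refine key (fun p => p ∣ C₂ ∨ ∀ i, (p : ℤ) ∣ k i) ?_ ?_
    · intro p _ hB
      push Not at hB
      exact Or.inr ⟨hB.1, hB.2⟩
    · -- an index with nonzero coordinate
      have hex : ∃ i, k i ≠ 0 := by
        by_contra hcon
        push Not at hcon
        apply hne
        rw [hcon 2, hcon 0]; ring
      obtain ⟨i, hi⟩ := hex
      have h1 : C.primeFactors.filter (fun p => p ∣ C₂ ∨ ∀ i, (p : ℤ) ∣ k i) ⊆
          C.primeFactors.filter (fun p => p ∣ C₂) ∪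
          C.primeFactors.filter (fun p => ∀ i, (p : ℤ) ∣ k i) := by
        rw [Finset.filter_or]
      have h2 : ((∏ p ∈ C.primeFactors.filter (fun p => p ∣ C₂), p : ℕ) : ℝ) ≤
          |(((k 2) ^ 2 - b * (k 0) ^ 2 : ℤ) : ℝ)| := by
        refine prod_le _ (fun p hp => ?_) _ (sub_ne_zero.2 hne) fun p hp => ?_
        · exact Nat.prime_of_mem_primeFactors (Finset.mem_filter.1 hp).1
        · exact hloc p (Finset.mem_filter.1 hp).1 (Finset.mem_filter.1 hp).2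
      have h3 : ((∏ p ∈ C.primeFactors.filter (fun p : ℕ => ∀ i, (p : ℤ) ∣ k i), p : ℕ) : ℝ) ≤
          |((k i : ℤ) : ℝ)| := by
        refine prod_le _ (fun p hp => ?_) _ hi fun p hp => ?_
        · exact Nat.prime_of_mem_primeFactors (Finset.mem_filter.1 hp).1
        · exact (Finset.mem_filter.1 hp).2 i
      have h4 : ((∏ p ∈ C.primeFactors.filter (fun p => p ∣ C₂ ∨ ∀ i, (p : ℤ) ∣ k i), p : ℕ) : ℝ) ≤
          ((∏ p ∈ C.primeFactors.filter (fun p => p ∣ C₂), p : ℕ) : ℝ) *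
          ((∏ p ∈ C.primeFactors.filter (fun p : ℕ => ∀ i, (p : ℤ) ∣ k i), p : ℕ) : ℝ) := by
        have h5 : ∏ p ∈ C.primeFactors.filter (fun p => p ∣ C₂ ∨ ∀ i, (p : ℤ) ∣ k i), p ≤
            (∏ p ∈ C.primeFactors.filter (fun p => p ∣ C₂), p) *
            ∏ p ∈ C.primeFactors.filter (fun p : ℕ => ∀ i, (p : ℤ) ∣ k i), p := by
          rw [Finset.filter_or, ← Finset.prod_union_inter]
          refine Nat.le_mul_of_pos_right _ (Finset.prod_pos fun p hp => ?_)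
          exact (Nat.prime_of_mem_primeFactors
            (Finset.mem_filter.1 (Finset.mem_inter.1 hp).1).1).pos
        exact_mod_cast h5
      have h6 : |(((k 2) ^ 2 - b * (k 0) ^ 2 : ℤ) : ℝ)| ≤ (1 + |(b : ℝ)|) * (L : ℝ) ^ 2 := by
        push_cast
        have e1 : (k 2 : ℝ) ^ 2 ≤ (L : ℝ) ^ 2 := by
          rw [← sq_abs]; exact pow_le_pow_left₀ (abs_nonneg _) (hkR 2) 2
        have e2 : (k 0 : ℝ) ^ 2 ≤ (L : ℝ) ^ 2 := by
          rw [← sq_abs]; exact pow_le_pow_left₀ (abs_nonneg _) (hkR 0) 2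
        calc |(k 2 : ℝ) ^ 2 - b * (k 0 : ℝ) ^ 2| ≤ |(k 2 : ℝ) ^ 2| + |b * (k 0 : ℝ) ^ 2| := abs_sub _ _
          _ = (k 2 : ℝ) ^ 2 + |(b : ℝ)| * (k 0 : ℝ) ^ 2 := by
              rw [abs_mul, abs_of_nonneg (sq_nonneg (k 2 : ℝ)), abs_of_nonneg (sq_nonneg (k 0 : ℝ))]
          _ ≤ (L : ℝ) ^ 2 + |(b : ℝ)| * (L : ℝ) ^ 2 :=
              add_le_add e1 (mul_le_mul_of_nonneg_left e2 hb0)
          _ = _ := by ring
      calc _ ≤ _ := h4
        _ ≤ ((1 + |(b : ℝ)|) * (L : ℝ) ^ 2) * L :=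
          mul_le_mul (h2.trans h6) (h3.trans (hkR i)) (Nat.cast_nonneg _) (by positivity)
        _ = _ := by ring
  · refine key (fun p => (p : ℤ) ∣ k 1) ?_ ?_
    · intro p _ hB
      by_cases hp2 : p ∣ C₂
      · exact Or.inl ⟨hp2, hB⟩
      · exact Or.inr ⟨hp2, 1, hB⟩
    · have h1 := prod_le (C.primeFactors.filter (fun p : ℕ => (p : ℤ) ∣ k 1))
        (fun p hp => Nat.prime_of_mem_primeFactors (Finset.mem_filter.1 hp).1) (k 1) hk1
        (fun p hp => (Finset.mem_filter.1 hp).2)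
      refine h1.trans ((hkR 1).trans ?_)
      have h2 : (L : ℝ) ≤ (L : ℝ) ^ 3 := le_self_pow₀ hL1 (by norm_num)
      have h3 : (0 : ℝ) ≤ (L : ℝ) ^ 3 := by positivity
      nlinarith

/-- number of nonzero multiples -/
lemma card_mult (L m : ℕ) (hm : 1 ≤ m) :
    (((Finset.Ioo (-(L : ℤ)) (L : ℤ)).filter (fun x => x ≠ 0 ∧ (m : ℤ) ∣ x)).card : ℝ) ≤
      2 * (L : ℝ) / m := by
  have h1 : (Finset.Ioo (-(L : ℤ)) (L : ℤ)).filter (fun x => x ≠ 0 ∧ (m : ℤ) ∣ x) ⊆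
      (Finset.Icc 1 (L / m)).image (fun j : ℕ => (m : ℤ) * j) ∪
      (Finset.Icc 1 (L / m)).image (fun j : ℕ => -((m : ℤ) * j)) := by
    intro x hx
    rw [Finset.mem_filter, Finset.mem_Ioo] at hx
    obtain ⟨⟨hx1, hx2⟩, hx0, y, hy⟩ := hx
    have hy0 : y ≠ 0 := by rintro rfl; simp at hy; exact hx0 hy
    have hyabs : |x| = m * |y| := by rw [hy, abs_mul]; simp
    have hlt : |x| < L := abs_lt.2 ⟨hx1, hx2⟩
    have hyn : y.natAbs ∈ Finset.Icc 1 (L / m) := by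
      rw [Finset.mem_Icc]
      refine ⟨Int.natAbs_pos.2 hy0, ?_⟩
      rw [Nat.le_div_iff_mul_le (by omega)]
      have : ((y.natAbs * m : ℕ) : ℤ) ≤ L := by
        push_cast
        rw [mul_comm, ← hyabs]
        exact hlt.le
      exact_mod_cast this
    rw [Finset.mem_union, Finset.mem_image, Finset.mem_image]
    rcases Int.natAbs_eq y with h2 | h2
    · left
      exact ⟨y.natAbs, hyn, by rw [← h2, ← hy]⟩
    · right
      refine ⟨y.natAbs, hyn, ?_⟩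
      rw [hy]
      conv_rhs => rw [h2]
      ring
  have h2 : ((Finset.Ioo (-(L : ℤ)) (L : ℤ)).filter (fun x => x ≠ 0 ∧ (m : ℤ) ∣ x)).card ≤
      2 * (L / m) := by
    refine (Finset.card_le_card h1).trans ((Finset.card_union_le _ _).trans ?_)
    have a1 := Finset.card_image_le (s := Finset.Icc 1 (L / m)) (f := fun j : ℕ => (m : ℤ) * j)
    have a2 := Finset.card_image_le (s := Finset.Icc 1 (L / m)) (f := fun j : ℕ => -((m : ℤ) * j))
    rw [Nat.card_Icc] at a1 a2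
    omega
  calc (((Finset.Ioo (-(L : ℤ)) (L : ℤ)).filter (fun x => x ≠ 0 ∧ (m : ℤ) ∣ x)).card : ℝ) ≤
      ((2 * (L / m) : ℕ) : ℝ) := by exact_mod_cast h2
    _ = 2 * ((L / m : ℕ) : ℝ) := by push_cast; ring
    _ ≤ 2 * ((L : ℝ) / m) := by
        have := Nat.cast_div_le (α := ℝ) (m := L) (n := m)
        linarith
    _ = _ := by ring

lemma card_divisors_le (n : ℕ) (hn : Squarefree n) : n.divisors.card ≤ 2 ^ om n := by
  rw [Nat.card_divisors hn.ne_zero, om]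
  refine Finset.prod_le_pow_card _ _ _ fun p _ => ?_
  have := hn.natFactorization_le_one p
  omega

/-- module N4E -/
theorem main_E : T_N4E := by
  classical
  intro K hK
  refine ⟨2 * K, by linarith, ?_⟩
  intro β w C C₂ L g hL hβ hgood hC₂ hw hg
  have hC := hgood.1
  have hC0 : C ≠ 0 := hC.ne_zero
  have hCpos : 0 < C := Nat.pos_of_ne_zero hC0
  obtain ⟨C₃, hC₃⟩ := hC₂
  have hC₂0 : C₂ ≠ 0 := by rintro rfl; simp at hC₃; omega
  have hC₂pos : 0 < C₂ := Nat.pos_of_ne_zero hC₂0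
  have hC₃0 : C₃ ≠ 0 := by rintro rfl; simp at hC₃; omega
  have hdiv : C / C₂ = C₃ := by rw [hC₃]; exact Nat.mul_div_cancel_left _ hC₂pos
  rw [hdiv]
  have hcop : Nat.Coprime C₂ C₃ := by
    rw [hC₃] at hC
    exact Nat.coprime_of_squarefree_mul hC
  have hsq₂ : Squarefree C₂ := hC.squarefree_of_dvd ⟨C₃, hC₃⟩
  have hsq₃ : Squarefree C₃ := hC.squarefree_of_dvd ⟨C₂, by rw [hC₃]; ring⟩
  have hgdvd : g ∣ C₂ := by
    rw [hg]
    refine (Finset.prod_dvd_prod_of_subset _ _ _ (Finset.filter_subset _ _)).trans ?_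
    rw [Nat.prod_primeFactors_of_squarefree hsq₂]
  have hg1 : 1 ≤ g := Nat.pos_of_dvd_of_pos hgdvd hC₂pos
  have hgR : (1 : ℝ) ≤ g := by exact_mod_cast hg1
  have hC₃R : (0 : ℝ) < C₃ := by exact_mod_cast Nat.pos_of_ne_zero hC₃0
  have hC₂R : (0 : ℝ) < C₂ := by exact_mod_cast hC₂pos
  have hCR : (C : ℝ) = C₂ * C₃ := by rw [hC₃]; push_cast; ring
  set k : ℤ → Fin 3 → ℤ := fun x i => if (i : ℕ) = 0 then x else if (i : ℕ) = 2 then -β * x else 0
    with hk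
  -- the bound of a single term
  have hterm : ∀ x : ℤ, x ≠ 0 → BT K w C C₂ (k x) ≤
      K ^ om C * ((C : ℝ) / (C₃ : ℝ) ^ (1 / 12 : ℝ)) *
        ∑ e ∈ C₃.divisors, if ((g * e : ℕ) : ℤ) ∣ x then (e : ℝ) else 0 := by
    intro x hx
    have hsum0 : 0 ≤ ∑ e ∈ C₃.divisors, if ((g * e : ℕ) : ℤ) ∣ x then (e : ℝ) else 0 :=
      Finset.sum_nonneg fun e _ => by split_ifs <;> positivity
    by_cases hgx : (g : ℤ) ∣ x
    · -- the main case
      set s := C₃.primeFactors.filter (fun p : ℕ => (p : ℤ) ∣ x) with hs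
      set G : ℕ := ∏ p ∈ s, p with hG
      have hGx : (G : ℤ) ∣ x := prod_dvd s
        (fun p hp => Nat.prime_of_mem_primeFactors (Finset.mem_filter.1 hp).1) x
        (fun p hp => (Finset.mem_filter.1 hp).2)
      have hGC : G ∣ C₃ := by
        rw [hG]
        refine (Finset.prod_dvd_prod_of_subset _ _ _ (Finset.filter_subset _ _)).trans ?_
        rw [Nat.prod_primeFactors_of_squarefree hsq₃]
      have hG1 : 1 ≤ G := Nat.pos_of_dvd_of_pos hGC (Nat.pos_of_ne_zero hC₃0)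
      have hGR : (1 : ℝ) ≤ G := by exact_mod_cast hG1
      have hgG : ((g * G : ℕ) : ℤ) ∣ x := by
        push_cast
        refine IsCoprime.mul_dvd ?_ hgx hGx
        exact (Nat.Coprime.coprime_dvd_left hgdvd (Nat.Coprime.coprime_dvd_right hGC hcop)).isCoprime
      have h1 : (G : ℝ) ≤ ∑ e ∈ C₃.divisors, if ((g * e : ℕ) : ℤ) ∣ x then (e : ℝ) else 0 := by
        have h2 := Finset.single_le_sum (s := C₃.divisors)
          (f := fun e : ℕ => if ((g * e : ℕ) : ℤ) ∣ x then (e : ℝ) else 0)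
          (fun e _ => by positivity) (Nat.mem_divisors.2 ⟨hGC, hC₃0⟩)
        simpa only [if_pos hgG] using h2
      have h2 := BT_le hK w C C₂ hC (k x) (fun p => p ∣ C₂ ∨ (p : ℤ) ∣ x) (by
        intro p _ hB
        push Not at hB
        exact Or.inr ⟨hB.1, 0, hB.2⟩)
      have h3 : ∏ p ∈ C.primeFactors.filter (fun p => p ∣ C₂ ∨ (p : ℤ) ∣ x), p ≤ C₂ * G := by
        have h4 : C.primeFactors.filter (fun p => p ∣ C₂ ∨ (p : ℤ) ∣ x) ⊆ C₂.primeFactors ∪ s := by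
          intro p hp
          rw [Finset.mem_filter] at hp
          obtain ⟨hp1, hp2⟩ := hp
          have hpp := Nat.prime_of_mem_primeFactors hp1
          have hpC := Nat.dvd_of_mem_primeFactors hp1
          rw [Finset.mem_union]
          by_cases h5 : p ∣ C₂
          · left
            exact Nat.mem_primeFactors.2 ⟨hpp, h5, hC₂0⟩
          · right
            rw [hs, Finset.mem_filter]
            rw [hC₃] at hpC
            exact ⟨Nat.mem_primeFactors.2 ⟨hpp, (hpp.dvd_mul.1 hpC).resolve_left h5, hC₃0⟩,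
              hp2.resolve_left h5⟩
        have h6 : ∏ p ∈ C.primeFactors.filter (fun p => p ∣ C₂ ∨ (p : ℤ) ∣ x), p ≤
            ∏ p ∈ C₂.primeFactors ∪ s, p := by
          refine Nat.le_of_dvd (Finset.prod_pos fun p hp => ?_)
            (Finset.prod_dvd_prod_of_subset _ _ _ h4)
          rw [Finset.mem_union] at hp
          rcases hp with hp | hp
          · exact (Nat.prime_of_mem_primeFactors hp).pos
          · exact (Nat.prime_of_mem_primeFactors (Finset.mem_filter.1 hp).1).pos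
        have h7 : ∏ p ∈ C₂.primeFactors ∪ s, p ≤ (∏ p ∈ C₂.primeFactors, p) * ∏ p ∈ s, p := by
          rw [← Finset.prod_union_inter]
          refine Nat.le_mul_of_pos_right _ (Finset.prod_pos fun p hp => ?_)
          exact (Nat.prime_of_mem_primeFactors (Finset.mem_inter.1 hp).1).pos
        rw [Nat.prod_primeFactors_of_squarefree hsq₂] at h7
        exact h6.trans h7
      have h3R : ((∏ p ∈ C.primeFactors.filter (fun p => p ∣ C₂ ∨ (p : ℤ) ∣ x), p : ℕ) : ℝ) ≤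
          C₂ * G := by exact_mod_cast h3
      have h4 : (C : ℝ) ^ (11 / 12 : ℝ) * ((C₂ : ℝ) * G) ^ (1 / 12 : ℝ) ≤
          (C : ℝ) / (C₃ : ℝ) ^ (1 / 12 : ℝ) * G := by
        have h5 : (C : ℝ) = (C : ℝ) ^ (11 / 12 : ℝ) * (C : ℝ) ^ (1 / 12 : ℝ) :=
          (pow_aux hCpos).symm
        have h6 : (C : ℝ) ^ (1 / 12 : ℝ) = (C₂ : ℝ) ^ (1 / 12 : ℝ) * (C₃ : ℝ) ^ (1 / 12 : ℝ) := by
          rw [hCR, Real.mul_rpow hC₂R.le hC₃R.le]
        have h7 : (C : ℝ) / (C₃ : ℝ) ^ (1 / 12 : ℝ) = (C : ℝ) ^ (11 / 12 : ℝ) * (C₂ : ℝ) ^ (1 / 12 : ℝ) := by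
          have : (0 : ℝ) < (C₃ : ℝ) ^ (1 / 12 : ℝ) := by positivity
          rw [div_eq_iff this.ne']
          conv_lhs => rw [h5, h6]
          ring
        rw [h7, Real.mul_rpow hC₂R.le (by linarith), ← mul_assoc]
        refine mul_le_mul_of_nonneg_left ?_ (by positivity)
        calc (G : ℝ) ^ (1 / 12 : ℝ) ≤ (G : ℝ) ^ (1 : ℝ) :=
              Real.rpow_le_rpow_of_exponent_le hGR (by norm_num)
          _ = G := Real.rpow_one _
      refine h2.trans ?_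
      rw [mul_assoc, mul_assoc]
      refine mul_le_mul_of_nonneg_left ?_ (by positivity)
      calc (C : ℝ) ^ (11 / 12 : ℝ) *
          ((∏ p ∈ C.primeFactors.filter (fun p => p ∣ C₂ ∨ (p : ℤ) ∣ x), p : ℕ) : ℝ) ^ (1 / 12 : ℝ)
          ≤ (C : ℝ) ^ (11 / 12 : ℝ) * ((C₂ : ℝ) * G) ^ (1 / 12 : ℝ) := by
            refine mul_le_mul_of_nonneg_left ?_ (by positivity)
            exact Real.rpow_le_rpow (Nat.cast_nonneg _) h3R (by norm_num)
        _ ≤ (C : ℝ) / (C₃ : ℝ) ^ (1 / 12 : ℝ) * G := h4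
        _ ≤ _ := mul_le_mul_of_nonneg_left h1 (by positivity)
    · -- the product vanishes
      have h0 : BT K w C C₂ (k x) = 0 := by
        have hex : ∃ p ∈ C₂.primeFactors.filter (fun p : ℕ => (p : ℤ) ∣ w + β), ¬ (p : ℤ) ∣ x := by
          by_contra hcon
          push Not at hcon
          apply hgx
          rw [hg]
          exact prod_dvd _ (fun p hp => Nat.prime_of_mem_primeFactors (Finset.mem_filter.1 hp).1) x
            hcon
        obtain ⟨p, hp, hpx⟩ := hex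
        rw [Finset.mem_filter] at hp
        obtain ⟨hp2, hpw⟩ := hp
        have hpp := Nat.prime_of_mem_primeFactors hp2
        have hpC₂ := Nat.dvd_of_mem_primeFactors hp2
        have hpC : p ∣ C := hpC₂.trans ⟨C₃, hC₃⟩
        obtain ⟨hp7, hpb⟩ := hgood.2 p hpp hpC
        rw [BT_eq]
        refine Finset.prod_eq_zero (Nat.mem_primeFactors.2 ⟨hpp, hpC, hC0⟩) ?_
        have hprime : Prime (p : ℤ) := Nat.prime_iff_prime_int.1 hpp
        unfold loc BdA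
        rw [if_pos hpC₂, if_neg, if_neg]
        · intro h1
          have h2 : (p : ℤ) ∣ -β * x + w * x := by
            rw [← ZMod.intCast_zmod_eq_zero_iff_dvd]
            push_cast
            simpa [red, hk] using h1
          have h3 : (p : ℤ) ∣ (w - β) * x := by
            have : (w - β) * x = -β * x + w * x := by ring
            rwa [this]
          have h4 := (hprime.dvd_mul.1 h3).resolve_right hpx
          have h5 : (p : ℤ) ∣ 2 * β := by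
            have : 2 * β = (w + β) - (w - β) := by ring
            rw [this]
            exact dvd_sub hpw h4
          rcases hprime.dvd_mul.1 h5 with h6 | h6
          · have := Int.le_of_dvd (by norm_num) h6
            omega
          · exact hpb (h6.trans (dvd_pow_self β (by norm_num)))
        · simp [red, hk]
      rw [h0]
      positivity
  -- summation
  have hsum : ∑ x ∈ (Finset.Ioo (-(L : ℤ)) (L : ℤ)).filter (fun x => x ≠ 0),
      ∑ e ∈ C₃.divisors, (if ((g * e : ℕ) : ℤ) ∣ x then (e : ℝ) else 0) ≤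
      2 ^ om C * (2 * (L : ℝ) / g) := by
    rw [Finset.sum_comm]
    have h1 : ∀ e ∈ C₃.divisors, ∑ x ∈ (Finset.Ioo (-(L : ℤ)) (L : ℤ)).filter (fun x => x ≠ 0),
        (if ((g * e : ℕ) : ℤ) ∣ x then (e : ℝ) else 0) ≤ 2 * (L : ℝ) / g := by
      intro e he
      have he0 : 1 ≤ e := Nat.pos_of_mem_divisors he
      have heR : (0 : ℝ) < e := by exact_mod_cast he0
      rw [← Finset.sum_filter, Finset.filter_filter, Finset.sum_const, nsmul_eq_mul]
      have h2 := card_mult L (g * e) (Nat.mul_pos hg1 he0)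
      calc _ ≤ (2 * (L : ℝ) / ((g * e : ℕ) : ℝ)) * e := mul_le_mul_of_nonneg_right h2 heR.le
        _ = 2 * (L : ℝ) / g := by
            push_cast
            field_simp
    refine (Finset.sum_le_card_nsmul _ _ _ h1).trans ?_
    rw [nsmul_eq_mul]
    refine mul_le_mul_of_nonneg_right ?_ (by positivity)
    have h2 := card_divisors_le C₃ hsq₃
    have h3 : om C₃ ≤ om C := by
      unfold om
      refine Finset.card_le_card (Nat.primeFactors_mono ⟨C₂, by rw [hC₃]; ring⟩ hC0)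
    have h4 : C₃.divisors.card ≤ 2 ^ om C := h2.trans (Nat.pow_le_pow_right (by norm_num) h3)
    exact_mod_cast h4
  have hK0 : (0 : ℝ) ≤ K ^ om C * ((C : ℝ) / (C₃ : ℝ) ^ (1 / 12 : ℝ)) := by positivity
  calc ∑ x ∈ (Finset.Ioo (-(L : ℤ)) (L : ℤ)).filter (fun x => x ≠ 0), BT K w C C₂ (k x)
      ≤ ∑ x ∈ (Finset.Ioo (-(L : ℤ)) (L : ℤ)).filter (fun x => x ≠ 0),
        K ^ om C * ((C : ℝ) / (C₃ : ℝ) ^ (1 / 12 : ℝ)) *
        ∑ e ∈ C₃.divisors, (if ((g * e : ℕ) : ℤ) ∣ x then (e : ℝ) else 0) :=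
        Finset.sum_le_sum fun x hx => hterm x (Finset.mem_filter.1 hx).2
    _ = K ^ om C * ((C : ℝ) / (C₃ : ℝ) ^ (1 / 12 : ℝ)) *
        ∑ x ∈ (Finset.Ioo (-(L : ℤ)) (L : ℤ)).filter (fun x => x ≠ 0),
          ∑ e ∈ C₃.divisors, (if ((g * e : ℕ) : ℤ) ∣ x then (e : ℝ) else 0) := by
        rw [Finset.mul_sum]
    _ ≤ K ^ om C * ((C : ℝ) / (C₃ : ℝ) ^ (1 / 12 : ℝ)) * (2 ^ om C * (2 * (L : ℝ) / g)) :=
        mul_le_mul_of_nonneg_left hsum hK0
    _ = (2 * K) ^ om C * 2 * C * L * (1 / ((g : ℝ) * (C₃ : ℝ) ^ (1 / 12 : ℝ))) := by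
        rw [mul_pow]
        field_simp
    _ ≤ (2 * K) ^ (om C + 1) * C * L * (1 / ((g : ℝ) * (C₃ : ℝ)) ^ (1 / 12 : ℝ)) := by
        have h1 : (2 * K) ^ om C * 2 ≤ (2 * K) ^ (om C + 1) := by
          rw [pow_succ]
          have : (0 : ℝ) ≤ (2 * K) ^ om C := by positivity
          nlinarith
        have h2 : 1 / ((g : ℝ) * (C₃ : ℝ) ^ (1 / 12 : ℝ)) ≤
            1 / ((g : ℝ) * (C₃ : ℝ)) ^ (1 / 12 : ℝ) := by
          refine one_div_le_one_div_of_le (by positivity) ?_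
          rw [Real.mul_rpow (by linarith) hC₃R.le]
          refine mul_le_mul_of_nonneg_right ?_ (by positivity)
          calc (g : ℝ) ^ (1 / 12 : ℝ) ≤ (g : ℝ) ^ (1 : ℝ) :=
                Real.rpow_le_rpow_of_exponent_le hgR (by norm_num)
            _ = g := Real.rpow_one _
        gcongr
    _ = _ := by rw [mul_one_div]

end Pool.Agent.H92.GF.N4
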